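import Pool.Agent.X89.JE1

open Polynomial

namespace Pool.Agent.Results.MP_e0279d_an.NeverCollinear

/-- The double confluent Heun equation
`z²E'' + ((1-l)z + μ(1-z²))E' + (λ + μ(l-1)z)E = 0` (equation (*) of the problem) has a nonzero
polynomial solution `E` (with complex coefficients). -/
def HasPolynomialSolution (l : ℕ) (μ lam : ℝ) : Prop :=
  ∃ E : ℂ[X], E ≠ 0 ∧ ∀ z : ℂ,
    z ^ 2 * (derivative (derivative E)).eval z +
      ((1 - l) * z + μ * (1 - z ^ 2)) * (derivative E).eval z +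
      (lam + μ * (l - 1) * z) * E.eval z = 0

/-- The set of all `A` such that, at the point `(B, A) = (lω, A)`, equation (*) with
`μ = A/(2ω)` and `λ = 1/(4ω²) - μ²` has a nonzero polynomial solution. -/
def heights (ω : ℝ) (l : ℕ) : Set ℝ :=
  {A | HasPolynomialSolution l (A / (2 * ω)) (1 / (4 * ω ^ 2) - (A / (2 * ω)) ^ 2)}

/-- `(lω, A)` is the point `𝒫_l`: `A` is the greatest element of `heights ω l`. -/
def IsP (ω : ℝ) (l : ℕ) (A : ℝ) : Prop := IsGreatest (heights ω l) A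

lemma lamEq {ω : ℝ} (hω : 0 < ω) (A : ℝ) :
    1 / (4 * ω ^ 2) - (A / (2 * ω)) ^ 2 = (1 - A ^ 2) / (4 * ω ^ 2) := by
  field_simp
  ring

lemma P1 {ω : ℝ} (hω : 0 < ω) : IsP ω 1 1 := by
  constructor
  · show HasPolynomialSolution 1 _ _
    rw [lamEq hω]
    norm_num
    exact Pool.Agent.X89.JE.has1 _
  · intro A hA
    by_contra hcon
    push Not at hcon
    have hA' : HasPolynomialSolution 1 _ _ := hA
    rw [lamEq hω] at hA'
    have hμ : A / (2 * ω) ≠ 0 := by positivity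
    have h := Pool.Agent.X89.JE.sol1 hμ hA'
    rw [div_eq_zero_iff] at h
    rcases h with h | h
    · nlinarith
    · have : 0 < 4 * ω ^ 2 := by positivity
      linarith

lemma P2 {ω : ℝ} (hω : 0 < ω) : IsP ω 2 (Real.sqrt (1 + 2 * ω)) := by
  have hs : Real.sqrt (1 + 2 * ω) ^ 2 = 1 + 2 * ω := Real.sq_sqrt (by positivity)
  have hs0 : 0 < Real.sqrt (1 + 2 * ω) := Real.sqrt_pos.2 (by positivity)
  constructor
  · show HasPolynomialSolution 2 _ _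
    rw [lamEq hω]
    refine Pool.Agent.X89.JE.has2 (by positivity) ?_
    rw [div_pow, hs]
    field_simp
    ring
  · intro A hA
    by_contra hcon
    push Not at hcon
    have hA0 : 0 < A := hs0.trans hcon
    have hA' : HasPolynomialSolution 2 _ _ := hA
    rw [lamEq hω] at hA'
    have hμ : A / (2 * ω) ≠ 0 := by positivity
    have h := Pool.Agent.X89.JE.sol2 hμ hA'
    have h2 : (A ^ 2 - 1) ^ 2 = (2 * ω) ^ 2 := by
      have h3 : (1 - A ^ 2) / (4 * ω ^ 2) * ((1 - A ^ 2) / (4 * ω ^ 2) - 1) * (4 * ω ^ 2) ^ 2 =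
        (A / (2 * ω)) ^ 2 * (4 * ω ^ 2) ^ 2 := by rw [h]
      have h4 : (1 - A ^ 2) / (4 * ω ^ 2) * ((1 - A ^ 2) / (4 * ω ^ 2) - 1) * (4 * ω ^ 2) ^ 2 =
        (1 - A ^ 2) * (1 - A ^ 2 - 4 * ω ^ 2) := by field_simp
      have h5 : (A / (2 * ω)) ^ 2 * (4 * ω ^ 2) ^ 2 = 4 * ω ^ 2 * A ^ 2 := by field_simp; ring
      rw [h4, h5] at h3
      linear_combination h3
    have h6 : 1 + 2 * ω < A ^ 2 := by rw [← hs]; exact pow_lt_pow_left₀ hcon hs0.le two_ne_zero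
    nlinarith

lemma cubic_of_sol {ω A : ℝ} (hω : 0 < ω) (h : (1 - A ^ 2) / (4 * ω ^ 2) * ((1 - A ^ 2) / (4 * ω ^ 2) - 2) ^ 2 =
    4 * (A / (2 * ω)) ^ 2 * ((1 - A ^ 2) / (4 * ω ^ 2) - 1)) :
    (A ^ 2 - 1) ^ 3 = 16 * ω ^ 2 * (A ^ 2 - 1) + 64 * ω ^ 4 := by
  have h3 := congrArg (fun t => t * (4 * ω ^ 2) ^ 3) h
  have h4 : (1 - A ^ 2) / (4 * ω ^ 2) * ((1 - A ^ 2) / (4 * ω ^ 2) - 2) ^ 2 * (4 * ω ^ 2) ^ 3 =
      (1 - A ^ 2) * (1 - A ^ 2 - 8 * ω ^ 2) ^ 2 := by field_simp; ring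
  have h5 : 4 * (A / (2 * ω)) ^ 2 * ((1 - A ^ 2) / (4 * ω ^ 2) - 1) * (4 * ω ^ 2) ^ 3 =
      16 * ω ^ 2 * A ^ 2 * (1 - A ^ 2 - 4 * ω ^ 2) := by field_simp; ring
  rw [h4, h5] at h3
  linear_combination -h3

lemma sol_of_cubic {ω A : ℝ} (hω : 0 < ω)
    (h : (A ^ 2 - 1) ^ 3 = 16 * ω ^ 2 * (A ^ 2 - 1) + 64 * ω ^ 4) :
    (1 - A ^ 2) / (4 * ω ^ 2) * ((1 - A ^ 2) / (4 * ω ^ 2) - 2) ^ 2 =
    4 * (A / (2 * ω)) ^ 2 * ((1 - A ^ 2) / (4 * ω ^ 2) - 1) := by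
  have h4 : (1 - A ^ 2) / (4 * ω ^ 2) * ((1 - A ^ 2) / (4 * ω ^ 2) - 2) ^ 2 * (4 * ω ^ 2) ^ 3 =
      (1 - A ^ 2) * (1 - A ^ 2 - 8 * ω ^ 2) ^ 2 := by field_simp; ring
  have h5 : 4 * (A / (2 * ω)) ^ 2 * ((1 - A ^ 2) / (4 * ω ^ 2) - 1) * (4 * ω ^ 2) ^ 3 =
      16 * ω ^ 2 * A ^ 2 * (1 - A ^ 2 - 4 * ω ^ 2) := by field_simp; ring
  have h6 : (0 : ℝ) < (4 * ω ^ 2) ^ 3 := by positivity
  refine mul_right_cancel₀ h6.ne' ?_
  rw [h4, h5]
  linear_combination -h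

lemma exists_root {ω : ℝ} (hω : 0 < ω) : ∃ y : ℝ, 0 < y ∧ y ^ 3 = 16 * ω ^ 2 * y + 64 * ω ^ 4 := by
  have hM : (0 : ℝ) ≤ 4 * ω + 4 * ω ^ 2 := by positivity
  have hcont : ContinuousOn (fun y : ℝ => y ^ 3 - 16 * ω ^ 2 * y - 64 * ω ^ 4)
      (Set.Icc 0 (4 * ω + 4 * ω ^ 2)) := by fun_prop
  have h0 : (0 : ℝ) ∈ Set.Icc ((fun y : ℝ => y ^ 3 - 16 * ω ^ 2 * y - 64 * ω ^ 4) 0)
      ((fun y : ℝ => y ^ 3 - 16 * ω ^ 2 * y - 64 * ω ^ 4) (4 * ω + 4 * ω ^ 2)) := by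
    constructor
    · have : 0 < ω ^ 4 := by positivity
      simp only
      nlinarith
    · simp only
      have h1 : (4 * ω + 4 * ω ^ 2) ^ 3 - 16 * ω ^ 2 * (4 * ω + 4 * ω ^ 2) - 64 * ω ^ 4 =
        64 * ω ^ 4 + 192 * ω ^ 5 + 64 * ω ^ 6 := by ring
      rw [h1]
      positivity
  obtain ⟨y, hy, hy2⟩ := intermediate_value_Icc hM hcont h0
  simp only at hy2
  refine ⟨y, ?_, by linarith⟩
  rcases hy.1.lt_or_eq with h | h
  · exact h
  · exfalso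
    rw [← h] at hy2
    have : 0 < ω ^ 4 := by positivity
    nlinarith

lemma P3 {ω y : ℝ} (hω : 0 < ω) (hy : 0 < y) (hc : y ^ 3 = 16 * ω ^ 2 * y + 64 * ω ^ 4) :
    IsP ω 3 (Real.sqrt (1 + y)) := by
  have hs : Real.sqrt (1 + y) ^ 2 = 1 + y := Real.sq_sqrt (by positivity)
  have hs0 : 0 < Real.sqrt (1 + y) := Real.sqrt_pos.2 (by positivity)
  constructor
  · show HasPolynomialSolution 3 _ _
    rw [lamEq hω]
    refine Pool.Agent.X89.JE.has3 (by positivity) ?_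
    refine sol_of_cubic hω ?_
    rw [hs]
    linear_combination hc
  · intro A hA
    by_contra hcon
    push Not at hcon
    have hA0 : 0 < A := hs0.trans hcon
    have hA' : HasPolynomialSolution 3 _ _ := hA
    rw [lamEq hω] at hA'
    have hμ : A / (2 * ω) ≠ 0 := by positivity
    have h := cubic_of_sol hω (Pool.Agent.X89.JE.sol3 hμ hA')
    have h6 : 1 + y < A ^ 2 := by rw [← hs]; exact pow_lt_pow_left₀ hcon hs0.le two_ne_zero
    set t := A ^ 2 - 1 with ht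
    have h7 : y < t := by linarith
    have h8 : (t - y) * (t ^ 2 + t * y + y ^ 2 - 16 * ω ^ 2) = 0 := by linear_combination h - hc
    have h9 : t ^ 2 + t * y + y ^ 2 - 16 * ω ^ 2 = 0 := by
      rcases mul_eq_zero.1 h8 with h10 | h10
      · linarith
      · exact h10
    have h11 : 0 < y * (y ^ 2 - 16 * ω ^ 2) := by
      have : y * (y ^ 2 - 16 * ω ^ 2) = 64 * ω ^ 4 := by linear_combination hc
      rw [this]; positivity
    have h12 : 0 < y ^ 2 - 16 * ω ^ 2 := pos_of_mul_pos_right h11 hy.le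
    have h13 : 0 < t ^ 2 + t * y := by
      have : 0 < t := hy.trans h7
      positivity
    linarith

/-- For every `ω > 0` the points `𝒫₁, 𝒫₂, 𝒫₃` exist and do not lie on one straight line
`{(B, A) : aB + bA = c}`, `(a, b) ≠ (0, 0)`. -/
theorem result (ω : ℝ) (hω : 0 < ω) :
    ∃ A₁ A₂ A₃ : ℝ, (IsP ω 1 A₁ ∧ IsP ω 2 A₂ ∧ IsP ω 3 A₃) ∧
      ¬ ∃ a b c : ℝ, (a ≠ 0 ∨ b ≠ 0) ∧ a * (1 * ω) + b * A₁ = c ∧ a * (2 * ω) + b * A₂ = c ∧
        a * (3 * ω) + b * A₃ = c := by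
  obtain ⟨y, hy, hc⟩ := exists_root hω
  refine ⟨1, Real.sqrt (1 + 2 * ω), Real.sqrt (1 + y), ⟨P1 hω, P2 hω, P3 hω hy hc⟩, ?_⟩
  rintro ⟨a, b, c, hab, h1, h2, h3⟩
  set q := Real.sqrt (1 + 2 * ω) with hq
  set r := Real.sqrt (1 + y) with hr
  have hq2 : q ^ 2 = 1 + 2 * ω := Real.sq_sqrt (by positivity)
  have hr2 : r ^ 2 = 1 + y := Real.sq_sqrt (by positivity)
  have hq0 : 0 ≤ q := Real.sqrt_nonneg _
  have hq1 : 1 < q := by nlinarith
  have hb : b * (r - 2 * q + 1) = 0 := by linear_combination h3 - 2 * h2 + h1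
  rcases mul_eq_zero.1 hb with hb | hb
  · have ha : a * ω = 0 := by rw [hb] at h1 h2; linear_combination h2 - h1
    rcases mul_eq_zero.1 ha with ha | ha
    · rcases hab with h | h
      · exact h ha
      · exact h hb
    · exact hω.ne' ha
  · have hr3 : r = 2 * q - 1 := by linarith
    have hy2 : y = 4 * q * (q - 1) := by rw [hr3] at hr2; linear_combination -hr2
    have hω2 : ω = (q ^ 2 - 1) / 2 := by linarith
    rw [hy2, hω2] at hc
    have h5 : (q - 1) ^ 5 * (q ^ 3 + 5 * q ^ 2 - q - 1) = 0 := by linear_combination (-1 / 4 : ℝ) * hc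
    have h6 : 0 < (q - 1) ^ 5 := by have : 0 < q - 1 := by linarith
                                    positivity
    have h7 : 0 < q ^ 3 + 5 * q ^ 2 - q - 1 := by nlinarith
    exact absurd h5 (mul_pos h6 h7).ne'

end Pool.Agent.Results.MP_e0279d_an.NeverCollinear
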